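import Pool.Agent.Helper28.PR.DefsG

/-!
# The orbits of the primes: polynomial dependence of the constants

The statements `UIPoly` (uniform integrability of the densities of the limit law, with a power), `S2gPoly` (multiplicities of words) and
`S5gPoly` (transference).
-/

set_option autoImplicit false

namespace Pool.Agent.Helper5.PP

open Filter Topology
open Pool.Agent.Helper68.Moeller Pool.Agent.Helper52.Tao Pool.Agent.Helper28.PR Pool.Agent.Helper91.PL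

/-- Uniform integrability of the densities of the limit law, with a power. -/
def UIPoly (d m : ℕ) (r : ℤ → ℤ) : Prop := ∃ K A : ℝ, 0 < K ∧ 0 < A ∧ ∀ δ : ℝ, 0 < δ → δ ≤ 1 → ∃ l0 : ℕ, ∀ l : ℕ, l0 ≤ l →
  (∑ Y ∈ Finset.range (m ^ l), if K * δ ^ (-A) < (m : ℝ) ^ l * nu d m r l Y then nu d m r l Y else 0) ≤ δ

/-- Most words have a bounded multiplicity (relative to the mean), with a power. -/
def S2gPoly (d m : ℕ) (r : ℤ → ℤ) : Prop := ∃ K A : ℝ, 0 < K ∧ 0 < A ∧ ∀ δ : ℝ, 0 < δ → δ ≤ 1 → ∃ k0 : ℕ, ∀ k : ℕ, k0 ≤ k →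
  cW d k (fun w => K * δ ^ (-A) * rhg d m k w < multg d m r k w) ≤ δ * (d : ℝ) ^ k

/-- Transference, with a power. -/
def S5gPoly (d m : ℕ) (r : ℤ → ℤ) : Prop := ∃ K : ℕ, 0 < K ∧ ∃ A : ℝ, 0 < A ∧ ∀ θ : ℝ, 0 < θ → ∃ c : ℝ, 0 < c ∧
  ∀ η : ℝ, 0 < η → η ≤ 1 → ∃ Y : ℕ, ∀ y H : ℕ, Y ≤ y → (y : ℝ) ^ θ ≤ H → H ≤ y → ∀ B : Set ℤ,
    ({n : ℤ | (y : ℤ) < n ∧ n ≤ y + H ∧ (T d m r)^[kyg K y] n ∈ B}.ncard : ℝ) ≤ c * η ^ A * H →
    ({p : ℕ | p.Prime ∧ y < p ∧ p ≤ y + H ∧ (T d m r)^[kyg K y] (p : ℤ) ∈ B}.ncard : ℝ) ≤ η * (H / Real.log y)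

end Pool.Agent.Helper5.PP
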