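import Pool.Agent.Helper34.PT.Tail
import Pool.Agent.Helper28.POSB.Basins

/-!
# PrimeOrbits v2: the primes of an invariant set of density `< D`, upper bound with a power

An invariant set of natural density `< D` contains at most `C D ^ a x / log x` of the primes `p ≤ x`, `x` large; for all maps.
-/

set_option autoImplicit false

namespace Pool.Agent.Helper5.PP

open Filter Topology
open Pool.Agent.Helper68.Moeller Pool.Agent.Helper52.Tao Pool.Agent.Helper8.ND Pool.Agent.Helper8 Pool.Agent.Helper91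
  Pool.Agent.Helper28 Pool.Agent.Helper28.PR Pool.Agent.Helper34.PT

variable {d m : ℕ} {r : ℤ → ℤ}

/-- **The primes of an invariant set of small density.** -/
theorem inv_upper (h : POSB.Std d m r) (h5 : S5pStmt d m r) : ∃ a C : ℝ, 0 < a ∧ 0 < C ∧ ∀ z : ℝ, 0 ≤ z → ∀ D : ℝ, 0 < D →
    ∀ G : Set ℤ, TInv d m r G z → PL.dens G < D →
      ∀ᶠ x : ℝ in atTop, cp (fun p => (p : ℤ) ∈ G) x ≤ C * D ^ a * (x / Real.log x) := by
  obtain ⟨a, C, ha, hC, h1⟩ := small_primesp h.hd (by have := h.hdm; omega) h.hr h5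
  refine ⟨a, 3 * (C * 2 ^ a), ha, by positivity, fun z hz D hD G hG hGD => ?_⟩
  obtain ⟨Y, hY⟩ := h1 (2 * D) (by positivity) z hz
  obtain ⟨X, hX⟩ := eventually_atTop.1 ((POSB.tendsto_dens h hG).eventually (gt_mem_nhds hGD))
  have h2 : ∀ y : ℕ, max (max Y 1) ⌈X⌉₊ ≤ y → ({p : ℕ | p.Prime ∧ y < p ∧ p ≤ y + y ∧ (p : ℤ) ∈ G}.ncard : ℝ) ≤
      C * (2 * D) ^ a * (y / Real.log y) := by
    intro y hy
    have hyY : Y ≤ y := (le_max_left _ _).trans ((le_max_left _ _).trans hy)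
    have hy1 : (1 : ℝ) ≤ y := by exact_mod_cast (le_max_right _ _).trans ((le_max_left _ _).trans hy)
    have hyX : X ≤ y := (Nat.le_ceil _).trans (by exact_mod_cast (le_max_right _ _).trans hy)
    refine hY G hG y hyY ?_
    have h3 := hX ((y : ℝ) + y) (by linarith)
    rw [div_lt_iff₀ (by linarith)] at h3
    have h4 : ({n : ℤ | (y : ℤ) < n ∧ n ≤ y + y ∧ n ∈ G}.ncard : ℝ) ≤ cN G ((y : ℝ) + y) := by
      unfold cN
      refine Nat.cast_le.2 (Set.ncard_le_ncard ?_ (finite_cN G _))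
      rintro n ⟨a1, a2, a3⟩
      exact ⟨a3, by omega, by exact_mod_cast a2⟩
    refine h4.trans (h3.le.trans (le_of_eq ?_))
    ring
  have h3 := dyadic_sum (P := fun p => (p : ℤ) ∈ G) (η := C * (2 * D) ^ a) (by positivity) h2
  filter_upwards [h3] with x hx
  refine hx.trans (le_of_eq ?_)
  rw [Real.mul_rpow (by norm_num) hD.le]
  ring

/-- The form for sets with a natural density. -/
theorem inv_upper_density (h : POSB.Std d m r) (h5 : S5pStmt d m r) : ∃ a C : ℝ, 0 < a ∧ 0 < C ∧ ∀ (G : Set ℤ) (D : ℝ),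
    (∀ n : ℤ, 0 < n → (n ∈ G ↔ T d m r n ∈ G)) →
    Tendsto (fun x : ℝ => ({n : ℤ | n ∈ G ∧ 0 < n ∧ (n : ℝ) ≤ x}.ncard : ℝ) / x) atTop (𝓝 D) → 0 < D → ∃ X : ℝ, ∀ x : ℝ, X ≤ x →
      ({p : ℕ | p.Prime ∧ (p : ℝ) ≤ x ∧ (p : ℤ) ∈ G}.ncard : ℝ) ≤ C * D ^ a * (x / Real.log x) := by
  obtain ⟨a, C, ha, hC, h1⟩ := inv_upper h h5
  refine ⟨a, C * 2 ^ a, ha, by positivity, fun G D hG hGD hD => ?_⟩
  have hdens : PL.dens G = D := tendsto_nhds_unique (POSB.tendsto_dens h (POSB.Inv.tinv hG)) hGD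
  obtain ⟨X, hX⟩ := eventually_atTop.1 (h1 0 le_rfl (2 * D) (by positivity) G (POSB.Inv.tinv hG) (by rw [hdens]; linarith))
  refine ⟨X, fun x hx => (hX x hx).trans (le_of_eq ?_)⟩
  rw [Real.mul_rpow (by norm_num) hD.le]
  ring

end Pool.Agent.Helper5.PP
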