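import Pool.Agent.Helper34.PT.Defs
import Pool.Agent.Helper28.PR.MultAg

/-!
# The orbits of the primes: polynomial dependence of the constants, the multiplicities of the words

Copy of `Helper28/PR/MultAg.s2g_of` (helper28) with the constants explicit.
-/

set_option autoImplicit false

namespace Pool.Agent.Helper5.PP

open Pool.Agent.Helper68.Moeller Pool.Agent.Helper52.Tao Pool.Agent.Helper8.ND
  Pool.Agent.Helper8.CL Pool.Agent.Helper91.PL Pool.Agent.Helper28.PR Pool.Agent.Helper28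
  Pool.Agent.Helper34.PT Filter Topology

variable {d m : ℕ} {r : ℤ → ℤ}

/-- One `δ`. -/
theorem s2g_one (hd : 2 ≤ d) (hdm : d < m) (hco : Nat.Coprime m d) (hmix : Mixing d m r) {δ K1 : ℝ} {l0 : ℕ} (hδ : 0 < δ)
    (hui : ∀ l : ℕ, l0 ≤ l → (∑ Y ∈ Finset.range (m ^ l), if K1 < (m : ℝ) ^ l * nu d m r l Y then nu d m r l Y else 0) ≤ δ / 16) :
    ∃ k0 : ℕ, ∀ k : ℕ, k0 ≤ k → cW d k (fun w => 8 * K1 * rhg d m k w < multg d m r k w) ≤ δ * (d : ℝ) ^ k := by
  classical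
  obtain ⟨C, hC, hC2⟩ := hmix 9
  obtain ⟨n0, hn0⟩ := exists_nat_ge ((5 + 1024 * C) * 2 / δ)
  have hd2 : (2 : ℝ) ≤ d := by exact_mod_cast hd
  have hd0 : (0 : ℝ) < d := by linarith
  refine ⟨(max (max l0 n0) (100 * d) + 1) ^ 8, fun k hk => ?_⟩
  obtain ⟨n, hn1, hn2⟩ := s2_root k
  have hnn : max (max l0 n0) (100 * d) ≤ n := by
    by_contra h
    push Not at h
    have h1 : (n + 1) ^ 8 ≤ (max (max l0 n0) (100 * d) + 1) ^ 8 := Nat.pow_le_pow_left (by omega) 8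
    omega
  simp only [max_le_iff] at hnn
  obtain ⟨⟨hnl, hnn0⟩, hnd⟩ := hnn
  have hn100 : 100 ≤ n := by omega
  have hnr : (100 : ℝ) ≤ n := by exact_mod_cast hn100
  have hndr : 100 * (d : ℝ) ≤ n := by exact_mod_cast hnd
  have hn0r : (0 : ℝ) < n := by linarith
  have hk1 : (n : ℝ) ^ 8 ≤ k := by exact_mod_cast hn1
  have hk2 : (k : ℝ) + 1 ≤ 2 * 256 * (n : ℝ) ^ 8 := by
    have h1 : k < (2 * n) ^ 8 := hn2.trans_le (Nat.pow_le_pow_left (by omega) 8)
    have h2 : (k : ℝ) < (2 * (n : ℝ)) ^ 8 := by exact_mod_cast h1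
    have h3 : (1 : ℝ) ≤ (n : ℝ) ^ 8 := one_le_pow₀ (by linarith)
    nlinarith
  have hk0 : (0 : ℝ) < k := lt_of_lt_of_le (by positivity) hk1
  -- `k` is much larger than the powers of `n`
  have hn4 : (10 : ℝ) ^ 8 ≤ (n : ℝ) ^ 4 := by
    calc (10 : ℝ) ^ 8 = 100 ^ 4 := by norm_num
      _ ≤ (n : ℝ) ^ 4 := pow_le_pow_left₀ (by norm_num) hnr 4
  have hkn4 : (10 : ℝ) ^ 8 * (n : ℝ) ^ 4 ≤ k := by
    refine le_trans ?_ hk1
    calc (10 : ℝ) ^ 8 * (n : ℝ) ^ 4 ≤ (n : ℝ) ^ 4 * (n : ℝ) ^ 4 := mul_le_mul_of_nonneg_right hn4 (by positivity)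
      _ = (n : ℝ) ^ 8 := by ring
  have hkn3 : (10 : ℝ) ^ 10 * (n : ℝ) ^ 3 ≤ k := by
    refine le_trans ?_ hkn4
    have h1 : (0 : ℝ) ≤ (n : ℝ) ^ 3 := by positivity
    nlinarith
  have hkdn3 : (10 : ℝ) ^ 8 * ((d : ℝ) * (n : ℝ) ^ 3) ≤ k := by
    refine le_trans ?_ hkn4
    have h1 : (0 : ℝ) ≤ (n : ℝ) ^ 3 := by positivity
    have h2 : (d : ℝ) ≤ n := by linarith
    have h3 : (d : ℝ) * (n : ℝ) ^ 3 ≤ n * (n : ℝ) ^ 3 := mul_le_mul_of_nonneg_right h2 h1
    nlinarith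
  have hn3 : (n : ℝ) * 10 ^ 4 ≤ (n : ℝ) ^ 3 := by
    have : (10 : ℝ) ^ 4 ≤ (n : ℝ) ^ 2 := by nlinarith
    nlinarith
  have h10n : 10 * n ≤ k := by
    have h1 : (10 : ℝ) * n ≤ k := by nlinarith
    exact_mod_cast h1
  obtain ⟨e, he⟩ := exists_e (d := d) (m := m) hco k
  obtain ⟨R, hR⟩ : ∃ R : ℝ, R = k / (n : ℝ) ^ 2 := ⟨_, rfl⟩
  have hR0 : 0 < R := by rw [hR]; positivity
  have hR4 : R * 10 ^ 4 ≤ k := by
    rw [hR, div_mul_eq_mul_div, div_le_iff₀ (by positivity)]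
    have : (10 : ℝ) ^ 4 ≤ (n : ℝ) ^ 2 := by nlinarith
    exact mul_le_mul_of_nonneg_left this hk0.le
  obtain ⟨J, hJ⟩ : ∃ J : Finset ℕ, J = (Finset.range (k + 1)).filter
    (fun j : ℕ => |(j : ℝ) - (1 - 1 / (d : ℝ)) * k| ≤ R) := ⟨_, rfl⟩
  have hJm : ∀ j : ℕ, j ∈ J ↔ j < k + 1 ∧ |(j : ℝ) - (1 - 1 / (d : ℝ)) * k| ≤ R := by
    intro j
    rw [hJ, Finset.mem_filter, Finset.mem_range]
  have hpk : (k : ℝ) / 2 ≤ (1 - 1 / (d : ℝ)) * k := by
    have h1 : 1 / (d : ℝ) ≤ 1 / 2 := one_div_le_one_div_of_le (by norm_num) hd2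
    nlinarith
  have hJj : ∀ j ∈ J, k / 2 - R ≤ (j : ℝ) := by
    intro j hj
    have h1 := ((hJm j).1 hj).2
    rw [abs_le] at h1
    linarith [h1.1, h1.2]
  have hlj : ∀ j ∈ J, n ≤ j := by
    intro j hj
    have h1 := hJj j hj
    have h2 : (n : ℝ) ≤ j := by nlinarith
    exact_mod_cast h2
  -- the ratio
  have hratio : ∀ j ∈ J, ∀ s : ℕ, s ≤ 10 * n →
      cW d (k - 10 * n) (fun v => s + sg v = j) ≤
        2 * ((k.choose j : ℝ) * ((d : ℝ) - 1) ^ j) / (d : ℝ) ^ (10 * n) := by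
    intro j hj s hs
    obtain ⟨k1, hk1'⟩ : ∃ k1 : ℕ, k1 = k - 10 * n := ⟨_, rfl⟩
    have hkk : k = k1 + 10 * n := by omega
    have hkr : (k : ℝ) = k1 + 10 * n := by rw [hkk]; push_cast; ring
    rw [← hk1']
    have hsj : s ≤ j := by
      have h1 := hJj j hj
      have h2 : ((10 * n : ℕ) : ℝ) ≤ j := by push_cast; nlinarith
      have h3 : 10 * n ≤ j := by exact_mod_cast h2
      omega
    have h1 : cW d k1 (fun v => s + sg v = j) = (k1.choose (j - s) : ℝ) * ((d : ℝ) - 1) ^ (j - s) := by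
      rw [← s2g_card hd]
      exact cW_congr fun v _ => by omega
    rw [h1]
    obtain ⟨ε, hε⟩ : ∃ ε : ℝ, ε = (2 * (d : ℝ) + 1) / (n : ℝ) ^ 2 := ⟨_, rfl⟩
    have hε0 : 0 ≤ ε := by rw [hε]; positivity
    have h2 := s2g_ratio hd k1 ε hε0 (10 * n) s j (d * R) hs hsj (by
      have h3 := ((hJm j).1 hj).2
      have h4 : (d : ℝ) * j - ((d : ℝ) - 1) * ((k1 : ℝ) + ((10 * n : ℕ) : ℝ)) =
          d * ((j : ℝ) - (1 - 1 / (d : ℝ)) * k) := by
        rw [hkr]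
        push_cast
        field_simp
      rw [h4, abs_mul, abs_of_pos hd0]
      exact mul_le_mul_of_nonneg_left h3 hd0.le) (by
      have h4 : (k : ℝ) / 2 ≤ k1 + 1 := by nlinarith
      have h5 : ε * (k / 2) ≤ ε * (k1 + 1) := mul_le_mul_of_nonneg_left h4 hε0
      refine le_trans ?_ h5
      have h6 : ε * (k / 2) = d * R + R / 2 := by rw [hε, hR]; ring
      rw [h6]
      have h7 : ((d : ℝ) - 1) * ((10 * n : ℕ) : ℝ) ≤ R / 2 := by
        rw [hR, div_div, le_div_iff₀ (by positivity)]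
        push_cast
        have h8 : ((d : ℝ) - 1) * (10 * n) * ((n : ℝ) ^ 2 * 2) = 20 * (((d : ℝ) - 1) * (n : ℝ) ^ 3) := by ring
        rw [h8]
        have h9 : ((d : ℝ) - 1) * (n : ℝ) ^ 3 ≤ (d : ℝ) * (n : ℝ) ^ 3 :=
          mul_le_mul_of_nonneg_right (by linarith) (by positivity)
        have h10 : (0 : ℝ) ≤ (d : ℝ) * (n : ℝ) ^ 3 := by positivity
        linarith
      linarith)
    rw [← hkk] at h2
    refine h2.trans ?_
    have h8 : (1 + ε) ^ (10 * n) ≤ 2 := by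
      have h9 : (1 + ε) ^ (10 * n) ≤ Real.exp (ε * (10 * n : ℕ)) := by
        rw [mul_comm ε, Real.exp_nat_mul]
        exact pow_le_pow_left₀ (by linarith) (by linarith [Real.add_one_le_exp ε]) _
      refine h9.trans ?_
      have h10 : ε * (10 * n : ℕ) ≤ 1 / 2 := by
        rw [hε]
        push_cast
        rw [div_mul_eq_mul_div, div_le_iff₀ (by positivity)]
        nlinarith
      have h11 : Real.exp (ε * (10 * n : ℕ)) ≤ Real.exp (1 / 2) := Real.exp_le_exp.2 h10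
      refine h11.trans ?_
      have h12 : Real.exp (1 / 2) ^ 2 = Real.exp 1 := by
        rw [← Real.exp_nat_mul]; norm_num
      have h13 := Real.exp_one_lt_d9
      nlinarith [Real.exp_pos (1 / 2)]
    rw [div_pow]
    have hch : (0 : ℝ) ≤ (k.choose j : ℝ) * ((d : ℝ) - 1) ^ j := by
      have : (0 : ℝ) ≤ (d : ℝ) - 1 := by linarith
      positivity
    have h2p : (0 : ℝ) < (d : ℝ) ^ (10 * n) := by positivity
    rw [div_mul_eq_mul_div]
    exact div_le_div_of_nonneg_right (mul_le_mul_of_nonneg_right h8 hch) h2p.le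
  have hcore := s2g_core (r := r) (K := 8 * K1) hd hdm hco he (show n ≤ 10 * n by omega) h10n J hJm hlj hratio
  refine hcore.trans ?_
  -- the four terms
  have t1 : cW d k (fun w => R < |(sg w : ℝ) - (1 - 1 / (d : ℝ)) * k|) ≤ (d : ℝ) ^ k * (1 / n) := by
    refine (chebyshev (d := d) hd k hR0).trans ?_
    refine mul_le_mul_of_nonneg_left ?_ (by positivity)
    rw [hR, div_pow, ← pow_mul, div_div_eq_mul_div, div_le_div_iff₀ (by positivity) hn0r]
    have h1 : (k : ℝ) * (n : ℝ) ^ (2 * 2) * n = k * (n : ℝ) ^ 5 := by ring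
    rw [h1, one_mul, sq]
    refine mul_le_mul_of_nonneg_left ?_ hk0.le
    refine le_trans ?_ hk1
    exact pow_le_pow_right₀ (by linarith) (by norm_num)
  have t2 : ∑ j ∈ J, 2 * Osc d m r e k j j n ≤ (d : ℝ) ^ k * (1024 * C / n) := by
    have h1 : ∀ j ∈ J, 2 * Osc d m r e k j j n ≤ 2 * (C * (d : ℝ) ^ k / (n : ℝ) ^ 9) := by
      intro j hj
      have h2 := hC2 j n (by omega) (hlj j hj) e ((pow_dvd_pow _ (by have := ((hJm j).1 hj).1; omega)).trans he) k j le_rfl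
      have h3 : (n : ℝ) ^ (-(9 : ℝ)) = 1 / (n : ℝ) ^ 9 := by
        rw [Real.rpow_neg hn0r.le, one_div]
        congr 1
        exact_mod_cast Real.rpow_natCast (n : ℝ) 9
      rw [h3] at h2
      refine mul_le_mul_of_nonneg_left (h2.trans (le_of_eq ?_)) (by norm_num)
      ring
    refine (Finset.sum_le_sum h1).trans ?_
    rw [Finset.sum_const, nsmul_eq_mul]
    have h2 : (J.card : ℝ) ≤ k + 1 := by
      have : J.card ≤ k + 1 := by
        rw [hJ]
        exact (Finset.card_filter_le _ _).trans (by rw [Finset.card_range])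
      exact_mod_cast this
    calc (J.card : ℝ) * (2 * (C * (d : ℝ) ^ k / (n : ℝ) ^ 9)) ≤
          (2 * 256 * (n : ℝ) ^ 8) * (2 * (C * (d : ℝ) ^ k / (n : ℝ) ^ 9)) :=
          mul_le_mul_of_nonneg_right (h2.trans hk2) (by positivity)
      _ = (d : ℝ) ^ k * (1024 * C / n) := by
        field_simp
        ring
  have t3 : 4 * cW d k (fun w => sg (w.take (10 * n)) < n) ≤ (d : ℝ) ^ k * (4 / n) := by
    have hkk : k = 10 * n + (k - 10 * n) := by omega
    have h1 : cW d k (fun w => sg (w.take (10 * n)) < n) =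
        cW d (10 * n) (fun u => sg u < n) * (d : ℝ) ^ (k - 10 * n) := by
      conv_lhs => rw [hkk]
      exact cW_take d (10 * n) (k - 10 * n) (fun u => sg u < n)
    have h2 := few_nonzero (d := d) hd (t := 10 * n) (k := n) (by omega)
    have h3 : (9 / 10 : ℝ) ^ (10 * n) ≤ 1 / n := by
      rw [pow_mul]
      have h4 : ((9 / 10 : ℝ) ^ 10) ^ n ≤ (1 / 2) ^ n := pow_le_pow_left₀ (by positivity) (by norm_num) n
      refine h4.trans ?_
      rw [div_pow, one_pow]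
      refine one_div_le_one_div_of_le hn0r ?_
      exact_mod_cast (Nat.lt_two_pow_self (n := n)).le
    have h5 : (d : ℝ) ^ k = (d : ℝ) ^ (10 * n) * (d : ℝ) ^ (k - 10 * n) := by
      rw [← pow_add]
      congr 1
    rw [h1]
    calc 4 * (cW d (10 * n) (fun u => sg u < n) * (d : ℝ) ^ (k - 10 * n))
        ≤ 4 * (((d : ℝ) ^ (10 * n) * (1 / n)) * (d : ℝ) ^ (k - 10 * n)) := by
          refine mul_le_mul_of_nonneg_left (mul_le_mul_of_nonneg_right ?_ (by positivity)) (by norm_num)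
          exact h2.trans (mul_le_mul_of_nonneg_left h3 (by positivity))
      _ = (d : ℝ) ^ k * (4 / n) := by rw [h5]; ring
  have t4 : 8 * (d : ℝ) ^ k * (∑ Y ∈ Finset.range (m ^ n),
      if 8 * K1 / 8 < (m : ℝ) ^ n * nu d m r n Y then nu d m r n Y else 0) ≤ 8 * (d : ℝ) ^ k * (δ / 16) := by
    refine mul_le_mul_of_nonneg_left ?_ (by positivity)
    have h1 := hui n hnl
    rw [show 8 * K1 / 8 = K1 by ring]
    exact h1
  have t5 : (5 + 1024 * C) / n ≤ δ / 2 := by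
    rw [div_le_iff₀ hn0r]
    have h1 : (5 + 1024 * C) * 2 / δ ≤ n := hn0.trans (by exact_mod_cast hnn0)
    rw [div_le_iff₀ hδ] at h1
    linarith
  have t6 : (d : ℝ) ^ k * (1 / (n : ℝ)) + (d : ℝ) ^ k * (1024 * C / n) + (d : ℝ) ^ k * (4 / n) =
      (d : ℝ) ^ k * ((5 + 1024 * C) / n) := by
    ring
  have t7 : (d : ℝ) ^ k * ((5 + 1024 * C) / n) ≤ (d : ℝ) ^ k * (δ / 2) := mul_le_mul_of_nonneg_left t5 (by positivity)
  linarith

/-- **(P3a)** -/
theorem s2p (hd : 2 ≤ d) (hdm : d < m) (hco : Nat.Coprime m d) (hmix : Mixing d m r) (hui : UiPoly d m r) :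
    S2pStmt d m r := by
  obtain ⟨A, C, hC, hui⟩ := hui
  refine ⟨A, 8 * (C * 16 ^ A), by positivity, fun δ hδ hδ1 => ?_⟩
  obtain ⟨l0, hl⟩ := hui (δ / 16) (by positivity) (by linarith)
  obtain ⟨k0, hk⟩ := s2g_one (r := r) hd hdm hco hmix hδ hl
  refine ⟨k0, fun k hk0 => ?_⟩
  have e : 8 * (C * 16 ^ A) / δ ^ A = 8 * (C / (δ / 16) ^ A) := by
    rw [div_pow]
    field_simp
  rw [e]
  exact hk k hk0

/-- **(P3a)** for the standard maps. -/
theorem s2p_std (h : POSB.Std d m r) (hui : UiPoly d m r) : S2pStmt d m r := s2p h.hd h.hdm h.hco h.mix hui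

end Pool.Agent.Helper5.PP
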